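import Pool.Agent.MP_bd94e8_al.H83A.Fin

set_option autoImplicit false

namespace Pool.Agent.Results.MP_bd94e8_al.RightModules

/-- Every artin algebra of infinite representation type has a generic (right) module. -/
theorem result (C : Type) [CommRing C] [IsArtinianRing C] (R : Type) [Ring R] [Algebra C R]
    [Module.Finite C R]
    (h : ∀ (n : ℕ) (N : Fin n → Type) [∀ i, AddCommGroup (N i)] [∀ i, Module Rᵐᵒᵖ (N i)],
      ∃ (M : Type) (_ : AddCommGroup M) (_ : Module Rᵐᵒᵖ M),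
        Module.Finite Rᵐᵒᵖ M ∧ Nontrivial M ∧
        (∀ P Q : Submodule Rᵐᵒᵖ M, IsCompl P Q → P = ⊥ ∨ Q = ⊥) ∧
        ∀ i, IsEmpty (M ≃ₗ[Rᵐᵒᵖ] N i)) :
    ∃ (G : Type) (_ : AddCommGroup G) (_ : Module Rᵐᵒᵖ G),
      Nontrivial G ∧ (∀ P Q : Submodule Rᵐᵒᵖ G, IsCompl P Q → P = ⊥ ∨ Q = ⊥) ∧
      ¬ Module.Finite Rᵐᵒᵖ G ∧ Module.length (Module.End Rᵐᵒᵖ G) G ≠ ⊤ := by
  obtain ⟨G, i1, i2, h1, h2, h3, h4, h5⟩ := Pool.Agent.MP_bd94e8_al.H89.last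
    Pool.Agent.MP_bd94e8_al.H83A.fin_all C Rᵐᵒᵖ h
  exact ⟨G, i1, i2, h1, h2, h3, Module.length_ne_top⟩

end Pool.Agent.Results.MP_bd94e8_al.RightModules
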